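import Pool.Agent.Run7.h175.JM7

set_option autoImplicit false

/-!
# The parity of `p(n)` against powers of the eta function and bounded-memory predictors (MP_ebc808_nt)

Let `g_e(n)` be the coefficient of `q ^ n` in `∏ (1 - q ^ i) ^ e`, `e` a nonzero integer (so
`g_{-1} = p`, `g_{-t}` belongs to the `t`-multipartitions, and for `e > 0` the `g_e` are the
coefficients of the powers of the eta function). Let `T` be a finite set of pairs `(e, s)`, where `e` is
odd or `s = 0`, with `2 ^ s e ≡ 2 (mod 3)` and `(e, s) ≠ (-1, 2 a)` for `a ≤ A`. For all `L, b, R, Q, K`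
there is `X` such that for all `x ≥ X`, every nonzero array `c_{a,i}` (`a ≤ A`, `i ≤ L`) and every array
`d_{e,s,i}` over `F_2`, every Boolean function `Φ` of the outputs `v_1(n), …, v_R(n)` of `R` computations
which read the binary digits of `n` in one pass with `Q` memory states, every class `ρ` modulo `2 ^ b`
and both values `κ`, the equation
`∑_{a ≤ A} ∑_{i ≤ L} c_{a,i} p(4 ^ a n + i) + ∑_{(e,s) ∈ T} ∑_{i ≤ L} d_{e,s,i} g_e(2 ^ s n + i) +
Φ(v_1(n), …, v_R(n)) = κ` modulo 2 has at least `√x (log log x) ^ K / log x` solutions `n ≤ x` in the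
class.

So a rule which predicts the parity of `p(n)` by adding the coefficients in windows of arbitrary many
powers `η ^ 2, η ^ 5, η ^ 8, η ^ 11, …` and `1 / η ^ 4, 1 / η ^ 7, …` (at `n`), of `η, η ^ 7, η ^ 13, …`
and `1 / η ^ 5, …` (at `2 n`), and the output of computations with bounded memory, is wrong, and right,
that often in every class modulo `2 ^ b`. The case `T = ∅` is the starting file `JointDilatePatterns`.

Method. Let `f = ∏ (1 - X ^ i)`. A window in a class modulo a large `2 ^ k` reduces the even exponents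
`e = 2 ^ v e'` to the odd ones: `g_e(N)` is `g_{e'}(N / 2 ^ v)` modulo 2, or even; the dilate `2 ^ s`
becomes `2 ^ (s + k - v)`. For odd exponents and large even `E` the numbers
`μ = (2 ^ (s + E) + e) / 3` are odd natural numbers, and `f ^ e f ^ (2 ^ (s + E)) = f ^ (3 μ)`. The sum
of the pattern over the shifts `n - r`, `r` in the set of the exponents of `f ^ (2 ^ E)`, is a sum of
coefficients of the `D ^ μ` at the linear forms `8 (2 ^ s n + i) + μ` (`D` the discriminant modulo 2).
Equal forms with different `μ` occur; their terms form a sum `φ` of different powers of `D` with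
exponents in one class modulo 8. The theorem of Nicolas and Serre on the action of the Hecke operators
at the primes `3, 5` modulo 8, applied to `φ`, gives many odd coefficients of `φ` in every residue class
(products of many primes), and the forms not proportional to the chosen one are switched off by the
Chinese remainder theorem and nilpotency (starting files `R836/PP`, `N493/PE`). The predictors: two
residues modulo `2 ^ k` with the same states, and the difference of the pattern at the two places.
-/

namespace Pool.Agent.Results.MP_ebc808_nt.AgainstEtaPowers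

open PowerSeries

/-- `∏_{i ≥ 1} (1 - q ^ i) ^ e` for an integer `e`: Mathlib's series `pentagonalSeries ℤ` is
`∏_{i ≥ 1} (1 - q ^ i)`, and `invOfUnit (pentagonalSeries ℤ) 1` is its inverse -/
noncomputable def etaPow (e : ℤ) : ℤ⟦X⟧ :=
  pentagonalSeries ℤ ^ e.toNat * (invOfUnit (pentagonalSeries ℤ) 1) ^ (-e).toNat

/-- `u(n)` can be computed in one pass over the binary digits of `n` with `Q` memory states: either for
every `k` the value `u(2 ^ k n + r)` (`n ≥ 1`, `r < 2 ^ k`) depends only on `n` and on one of `Q` states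
which is determined by `r` (the digits are read from the lowest one), or for every `k` it depends only
on `r` and on one of `Q` states which is determined by `n` (from the highest one) -/
def OnePass (Q : ℕ) (u : ℕ → ZMod 2) : Prop :=
  (∀ k : ℕ, ∃ (s : ℕ → Fin Q) (h : Fin Q → ℕ → ZMod 2), ∀ n r : ℕ, 1 ≤ n → r < 2 ^ k →
    u (2 ^ k * n + r) = h (s r) n) ∨
  (∀ k : ℕ, ∃ (s : ℕ → Fin Q) (h : Fin Q → ℕ → ZMod 2), ∀ n r : ℕ, 1 ≤ n → r < 2 ^ k →
    u (2 ^ k * n + r) = h (s n) r)

theorem result (A L b R Q K : ℕ) (T : Finset (ℤ × ℕ))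
    (hT : ∀ q ∈ T, q.1 ≠ 0 ∧ (Odd q.1 ∨ q.2 = 0) ∧ 2 ^ q.2 * q.1 ≡ 2 [ZMOD 3])
    (hTA : ∀ a ≤ A, ((-1 : ℤ), 2 * a) ∉ T) :
    ∃ X : ℕ, ∀ x : ℕ, X ≤ x → ∀ c : Fin (A + 1) → Fin (L + 1) → ZMod 2, c ≠ 0 →
      ∀ (d : ℤ × ℕ → ℕ → ZMod 2) (v : Fin R → ℕ → ZMod 2), (∀ z, OnePass Q (v z)) →
      ∀ (Φ : (Fin R → ZMod 2) → ZMod 2) (ρ : ℕ) (κ : ZMod 2),
        √x * Real.log (Real.log x) ^ K / Real.log x ≤
          (((Finset.range (x + 1)).filter fun n => n % 2 ^ b = ρ % 2 ^ b ∧
            ∑ a : Fin (A + 1), ∑ i : Fin (L + 1),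
              c a i * (Fintype.card (Nat.Partition (4 ^ (a : ℕ) * n + i)) : ZMod 2) +
            ∑ q ∈ T, ∑ i ∈ Finset.range (L + 1),
              d q i * ((coeff (2 ^ q.2 * n + i) (etaPow q.1) : ℤ) : ZMod 2) +
              Φ (fun z => v z n) = κ).card : ℝ) :=
  Pool.Agent.Run7.h175.JM.mainP A L b R Q K T hT hTA

end Pool.Agent.Results.MP_ebc808_nt.AgainstEtaPowers
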