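import Pool.Agent.Run7.h274.ParPart

/-!
# Parity of partition functions after very few random changes of the set of parts

`pc A n` is the number of partitions of `n` all of whose parts lie in `A`; for `A` the set of all
positive integers this is `p(n)`. Let `B` be ANY set of parts, for instance all positive integers,
and change it at random: independently for each `m`, the membership of `m` is reversed with
probability `ρ m`, where `(log m) ^ 8 / m ≤ ρ m ≤ 1 / 2` and `ρ` varies slowly (for example
`ρ m = (log m) ^ 8 / m`, so that only about `(log N) ^ 9 / 9` of the integers up to `N` are changed).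
Then almost surely the parities of the numbers of partitions with parts in the changed set form a
normal binary sequence along every arithmetic progression; in particular the odd values have
density one half. More generally, for every power series with integer coefficients `f j`, not all
even, the coefficients of its product with the generating function of the partitions are, modulo
two, asymptotically uncorrelated with every given bounded sequence `w`. For `f j` the number of
partitions of `j` into parts of `t - 1` colours this concerns `t`-multipartitions.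
-/

open MeasureTheory ProbabilityTheory Filter Finset

namespace Pool.Agent.Results.MP_ebc808_nt.FewRandomChanges

open Pool.Agent.Run7.h274.ParCore Pool.Agent.Run7.h274.ParVar Pool.Agent.Run7.h274.ParPart
  Pool.Agent.Run7.h274.ParLim

theorem sz_nat (k : ℕ) : sz ((k : ℕ) : ZMod 2) = (-1 : ℝ) ^ k := by
  unfold sz
  rcases Nat.even_or_odd k with h | h
  · rw [if_pos ((ZMod.natCast_eq_zero_iff_even).mpr h), h.neg_one_pow]
  · have h1 : ((k : ℕ) : ZMod 2) = 1 := (ZMod.natCast_eq_one_iff_odd).mpr h
    rw [h1, if_neg (by decide), h.neg_one_pow]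

open scoped Classical in
/-- averages along a progression -/
theorem along_progression (g : ℕ → ℝ) (a c : ℕ) (ha : 1 ≤ a)
    (h : Tendsto (fun N : ℕ => (∑ n ∈ range N, (if (∃ k, n = a * k + c) then (1 : ℝ) else 0) * g n) /
      (N : ℝ)) atTop (nhds 0)) :
    Tendsto (fun N : ℕ => (∑ n ∈ range N, g (a * n + c)) / (N : ℝ)) atTop (nhds 0) := by
  have e1 : ∀ N : ℕ, ∑ n ∈ range (a * N + c), (if (∃ k, n = a * k + c) then (1 : ℝ) else 0) * g n =
      ∑ n ∈ range N, g (a * n + c) := by
    intro N
    have h1 : ∑ n ∈ range (a * N + c), (if (∃ k, n = a * k + c) then (1 : ℝ) else 0) * g n =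
        ∑ n ∈ (range N).image (fun k => a * k + c),
          (if (∃ k, n = a * k + c) then (1 : ℝ) else 0) * g n := by
      refine (Finset.sum_subset (fun n hn => ?_) (fun n hn hn' => ?_)).symm
      · rw [Finset.mem_image] at hn
        obtain ⟨k, hk, rfl⟩ := hn
        rw [Finset.mem_range] at hk ⊢
        have : a * k < a * N := Nat.mul_lt_mul_of_pos_left hk (by omega)
        omega
      · rw [if_neg, zero_mul]
        rintro ⟨k, rfl⟩
        apply hn'
        rw [Finset.mem_image]
        refine ⟨k, ?_, rfl⟩
        rw [Finset.mem_range] at hn ⊢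
        have : a * k < a * N := by omega
        exact Nat.lt_of_mul_lt_mul_left this
    rw [h1, Finset.sum_image]
    · refine Finset.sum_congr rfl fun k _ => ?_
      rw [if_pos ⟨k, rfl⟩, one_mul]
    · intro k _ k' _ hkk
      have h2 : a * k = a * k' := by
        have : a * k + c = a * k' + c := hkk
        omega
      exact Nat.eq_of_mul_eq_mul_left (by omega) h2
  have htop : Tendsto (fun N : ℕ => a * N + c) atTop atTop := by
    refine tendsto_atTop_mono (fun N => ?_) tendsto_id
    have : 1 * N ≤ a * N := Nat.mul_le_mul_right N ha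
    simp only [id]
    omega
  have h2 := h.comp htop
  have h3 : Tendsto (fun N : ℕ => ((a * N + c : ℕ) : ℝ) / (N : ℝ)) atTop (nhds a) := by
    have h4 : Tendsto (fun N : ℕ => (a : ℝ) + (c : ℝ) / (N : ℝ)) atTop (nhds ((a : ℝ) + 0)) :=
      tendsto_const_nhds.add (tendsto_const_div_atTop_nhds_zero_nat (c : ℝ))
    rw [add_zero] at h4
    refine h4.congr' ?_
    filter_upwards [eventually_ge_atTop 1] with N hN
    have hNpos : (0 : ℝ) < N := by exact_mod_cast hN
    push_cast
    field_simp
  have h5 := h2.mul h3
  rw [zero_mul] at h5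
  refine h5.congr' ?_
  filter_upwards [eventually_ge_atTop 1] with N hN
  have hNpos : (0 : ℝ) < N := by exact_mod_cast hN
  have hpos : (0 : ℝ) < ((a * N + c : ℕ) : ℝ) := by
    have : 0 < a * N + c := by
      have : 1 * N ≤ a * N := Nat.mul_le_mul_right N ha
      omega
    exact_mod_cast this
  simp only [Function.comp_apply]
  rw [e1 N]
  field_simp

theorem result {Ω : Type*} [MeasurableSpace Ω] (P : Measure Ω) [IsProbabilityMeasure P]
    (χ : ℕ → Ω → Bool) (hm : ∀ n, Measurable (χ n)) (hind : iIndepFun χ P) (κ : ℝ) (m₀ : ℕ)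
    (hlow : ∀ m : ℕ, m₀ ≤ m → (Real.log m) ^ 8 / m ≤ P.real {ω | χ m ω = true})
    (hup : ∀ m : ℕ, m₀ ≤ m → P.real {ω | χ m ω = true} ≤ 1 / 2)
    (hreg : ∀ m m' : ℕ, m₀ ≤ m → m ≤ m' → m' ≤ 2 * m →
      P.real {ω | χ m' ω = true} ≤ κ * P.real {ω | χ m ω = true} ∧
      P.real {ω | χ m ω = true} ≤ κ * P.real {ω | χ m' ω = true})
    (B : Set ℕ) :
    (∀ f : ℕ → ℕ, (∃ j, Odd (f j)) → ∀ w : ℕ → ℝ, (∀ n, |w n| ≤ 1) →
      ∀ᵐ ω ∂P, Tendsto (fun N : ℕ => (∑ n ∈ range N, w n *
        (-1) ^ (∑ j ∈ range (n + 1), f j * pc (symmDiff B {m | χ m ω = true}) (n - j))) /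
          (N : ℝ)) atTop (nhds 0)) ∧
    (∀ᵐ ω ∂P, ∀ a b l : ℕ, 1 ≤ a → ∀ e : Fin l → Bool,
      Tendsto (fun N : ℕ => (((range N).filter (fun n => ∀ i : Fin l,
        (Odd (pc (symmDiff B {m | χ m ω = true}) (a * n + b + i)) ↔ e i = true))).card : ℝ) /
          (N : ℝ)) atTop (nhds ((1 / 2) ^ l))) := by
  classical
  have first : ∀ f : ℕ → ℕ, (∃ j, Odd (f j)) → ∀ w : ℕ → ℝ, (∀ n, |w n| ≤ 1) →
      ∀ᵐ ω ∂P, Tendsto (fun N : ℕ => (∑ n ∈ range N, w n *
        (-1) ^ (∑ j ∈ range (n + 1), f j * pc (symmDiff B {m | χ m ω = true}) (n - j))) /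
          (N : ℝ)) atTop (nhds 0) := by
    intro f hf w hw
    obtain ⟨j₀, hj₀⟩ := GG_one B f hf
    have hlim := limit (P := P) χ hm hind (fun m => P.real {ω | χ m ω = true}) (fun _ => rfl)
      (GG B f) (fun x y n h => GG_loc B f x y n h) (fun x N n _ h => GG_aff B f x N n h) j₀ hj₀
      (max κ 1) (le_max_right _ _) m₀ hlow hup
      (fun m m' h1 h2 h3 => by
        obtain ⟨h4, h5⟩ := hreg m m' h1 h2 h3
        exact ⟨le_trans h4 (mul_le_mul_of_nonneg_right (le_max_left _ _) measureReal_nonneg),
          le_trans h5 (mul_le_mul_of_nonneg_right (le_max_left _ _) measureReal_nonneg)⟩) w hw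
    filter_upwards [hlim] with ω hω
    refine hω.congr fun N => ?_
    congr 1
    refine Finset.sum_congr rfl fun n _ => ?_
    rw [sg_GG]
    congr 1
    rw [← sz_nat]
    unfold bb chg
    push_cast
    rfl
  refine ⟨first, ?_⟩
  -- products of signs
  have prods : ∀ᵐ ω ∂P, ∀ a b l : ℕ, 1 ≤ a → ∀ T : Finset (Fin l), T.Nonempty →
      Tendsto (fun N : ℕ => (∑ n ∈ range N, ∏ i ∈ T,
        (-1 : ℝ) ^ (pc (symmDiff B {m | χ m ω = true}) (a * n + b + i))) / (N : ℝ))
        atTop (nhds 0) := by
    rw [ae_all_iff]; intro a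
    rw [ae_all_iff]; intro b
    rw [ae_all_iff]; intro l
    by_cases ha : 1 ≤ a
    swap
    · exact Filter.Eventually.of_forall fun ω h => absurd h ha
    have hT : ∀ᵐ ω ∂P, ∀ T : Finset (Fin l), T.Nonempty →
        Tendsto (fun N : ℕ => (∑ n ∈ range N, ∏ i ∈ T,
          (-1 : ℝ) ^ (pc (symmDiff B {m | χ m ω = true}) (a * n + b + i))) / (N : ℝ))
          atTop (nhds 0) := by
      rw [ae_all_iff]
      intro T
      by_cases hTne : T.Nonempty
      swap
      · exact Filter.Eventually.of_forall fun ω h => absurd h hTne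
      let f : ℕ → ℕ := fun j => ∑ i ∈ T, if (i : ℕ) + j = l then 1 else 0
      have hf : ∃ j, Odd (f j) := by
        obtain ⟨i₀, hi₀⟩ := hTne
        refine ⟨l - i₀, ?_⟩
        have : f (l - i₀) = 1 := by
          simp only [f]
          rw [Finset.sum_eq_single i₀]
          · rw [if_pos (by have := i₀.2; omega)]
          · intro i _ hi
            rw [if_neg]
            intro h
            apply hi
            apply Fin.ext
            have := i₀.2
            omega
          · intro h
            exact absurd hi₀ h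
        rw [this]
        exact odd_one
      have h1 := first f hf (fun n => if (∃ k, n = a * k + (b + l)) then (1 : ℝ) else 0) (by
        intro n
        split_ifs <;> simp)
      filter_upwards [h1] with ω hω _
      have h2 := along_progression (fun n => (-1 : ℝ) ^ (∑ j ∈ range (n + 1),
        f j * pc (symmDiff B {m | χ m ω = true}) (n - j))) a (b + l) ha hω
      refine h2.congr fun N => ?_
      congr 1
      refine Finset.sum_congr rfl fun n _ => ?_
      rw [Finset.prod_pow_eq_pow_sum]
      congr 1
      simp only [f]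
      simp_rw [Finset.sum_mul]
      rw [Finset.sum_comm]
      refine Finset.sum_congr rfl fun i _ => ?_
      have hi := i.2
      rw [Finset.sum_eq_single (l - i)]
      · rw [if_pos (by omega), one_mul]
        congr 1
        omega
      · intro j _ hj
        rw [if_neg (by omega), zero_mul]
      · intro h
        exfalso
        apply h
        rw [Finset.mem_range]
        omega
    filter_upwards [hT] with ω hω _
    exact hω
  filter_upwards [prods] with ω hω a b l ha e
  set A : Set ℕ := symmDiff B {m | χ m ω = true} with hA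
  let ε : Fin l → ℝ := fun i => if e i = true then -1 else 1
  have hind1 : ∀ n : ℕ, (if (∀ i : Fin l, (Odd (pc A (a * n + b + i)) ↔ e i = true)) then (1 : ℝ)
      else 0) = (1 / 2) ^ l * ∑ T ∈ (univ : Finset (Fin l)).powerset,
        (∏ i ∈ T, ε i) * ∏ i ∈ T, (-1 : ℝ) ^ (pc A (a * n + b + i)) := by
    intro n
    have h1 : ∑ T ∈ (univ : Finset (Fin l)).powerset,
        (∏ i ∈ T, ε i) * ∏ i ∈ T, (-1 : ℝ) ^ (pc A (a * n + b + i)) =
        ∏ i : Fin l, (1 + ε i * (-1 : ℝ) ^ (pc A (a * n + b + i))) := by
      rw [Finset.prod_one_add]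
      refine Finset.sum_congr rfl fun T _ => ?_
      rw [Finset.prod_mul_distrib]
    rw [h1]
    have h2 : ∀ i : Fin l, 1 + ε i * (-1 : ℝ) ^ (pc A (a * n + b + i)) =
        2 * (if (Odd (pc A (a * n + b + i)) ↔ e i = true) then 1 else 0) := by
      intro i
      simp only [ε]
      rcases Nat.even_or_odd (pc A (a * n + b + i)) with h | h
      · have h' : ¬ Odd (pc A (a * n + b + i)) := Nat.not_odd_iff_even.mpr h
        rw [h.neg_one_pow]
        cases e i <;> (simp [h']; try norm_num)
      · rw [h.neg_one_pow]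
        cases e i <;> (simp [h]; try norm_num)
    simp_rw [h2]
    rw [Finset.prod_mul_distrib, Finset.prod_const, Finset.card_univ, Fintype.card_fin, ← mul_assoc,
      ← mul_pow]
    norm_num
    by_cases hall : ∀ i : Fin l, (Odd (pc A (a * n + b + i)) ↔ e i = true)
    · rw [if_pos hall]
      exact (Finset.prod_eq_one fun i _ => by rw [if_pos (hall i)]).symm
    · rw [if_neg hall]
      push Not at hall
      obtain ⟨i, hi⟩ := hall
      refine (Finset.prod_eq_zero (Finset.mem_univ i) ?_).symm
      rw [if_neg]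
      intro h
      rcases hi with ⟨h3, h4⟩ | ⟨h3, h4⟩
      · exact h4 (h.mp h3)
      · exact h3 (h.mpr h4)
  have hT : ∀ T ∈ (univ : Finset (Fin l)).powerset, Tendsto (fun N : ℕ =>
      (∏ i ∈ T, ε i) * ((∑ n ∈ range N, ∏ i ∈ T, (-1 : ℝ) ^ (pc A (a * n + b + i))) / (N : ℝ)))
      atTop (nhds (if T = ∅ then 1 else 0)) := by
    intro T _
    by_cases hTe : T = ∅
    · subst hTe
      rw [if_pos rfl]
      refine tendsto_const_nhds.congr' ?_
      filter_upwards [eventually_ge_atTop 1] with N hN
      have hNpos : (0 : ℝ) < N := by exact_mod_cast hN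
      simp only [Finset.prod_empty, Finset.sum_const, Finset.card_range, nsmul_eq_mul, mul_one,
        one_mul]
      rw [div_self (ne_of_gt hNpos)]
    · rw [if_neg hTe]
      have h1 := (hω a b l ha T (Finset.nonempty_iff_ne_empty.mpr hTe)).const_mul (∏ i ∈ T, ε i)
      rw [mul_zero] at h1
      exact h1
  have hsum := (tendsto_finsetSum _ hT).const_mul ((1 / 2 : ℝ) ^ l)
  have hval : ∑ T ∈ (univ : Finset (Fin l)).powerset, (if T = ∅ then (1 : ℝ) else 0) = 1 := by
    rw [Finset.sum_ite_eq' _ (∅ : Finset (Fin l)) (fun _ => (1 : ℝ)), if_pos (Finset.empty_mem_powerset _)]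
  rw [hval, mul_one] at hsum
  refine hsum.congr fun N => ?_
  rw [Finset.card_filter]
  push_cast
  rw [Finset.sum_congr rfl fun n _ => hind1 n, ← Finset.mul_sum, Finset.sum_comm, mul_div_assoc,
    Finset.sum_div]
  congr 1
  refine Finset.sum_congr rfl fun T _ => ?_
  rw [← Finset.mul_sum, mul_div_assoc]

end Pool.Agent.Results.MP_ebc808_nt.FewRandomChanges
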