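import Pool.Agent.Run7.h17.SparseP
import Pool.Agent.Run7.h17.Sparse6

/-!
# Parity of partition functions after sparse changes of the set of parts

`p B n` is the number of partitions of `n` with all parts in the set `B` (`B = univ` gives the partition function).
Let `A` be ANY set of parts, for instance the set of all positive integers, and change it at random: every `k` is
moved (deleted if it is in `A`, added if it is not) with a probability between `a k^(-c)` and `1 - a k^(-c)`,
independently, where `0 < c < 1` is fixed, so that only about `N^(1-c)` numbers up to `N` need be moved. Then almost surely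
the partition function of the changed set has the property asked for by Parkin and Shanks, with a power saving, and
much more: for all moduli `M`, all window lengths `L` and all sequences `b` growing at most like `i^D`, `D c < 1`, the
windows `(p(b i), …, p(b i + L - 1))` are equidistributed modulo `M`. In particular every set of parts can be changed
in at most `C N^ε` places up to `N` so that this holds along all arithmetic progressions.

The proof uses that for `n / 2 < k ≤ n` moving `k` changes `p(n)` by `± p(n - k)`; it shows by a recursion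
over scales that in every range there are many such `k` with `p(n - k)` not divisible by `M`, bounds the pair
correlations of the characters of the windows, and concludes by second moments.
-/

set_option autoImplicit false

namespace Pool.Agent.Results.MP_ebc808_nt.RandomSparseChanges

open MeasureTheory ProbabilityTheory Finset Filter Topology
open Pool.Agent.Run7.h17.Sparse (pc sys_parts main_as main_det Equi hits cf Cfg)

universe u

open Classical in
/-- the number of partitions of `n` with all parts in `B` -/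
noncomputable def p (B : Set ℕ) (n : ℕ) : ℕ := (Nat.Partition.restricted n (fun k => k ∈ B)).card

/-- Along the sequence `b`, all windows of values of `p B` are equidistributed modulo all `M`, with a power saving. -/
def Equidistributed (B : Set ℕ) (b : ℕ → ℕ) (κ : ℝ) : Prop :=
  ∀ M L : ℕ, 0 < M → ∃ C : ℝ, ∀ (v : Fin L → ZMod M) (I : ℕ), 1 ≤ I →
    |(Set.ncard {i : ℕ | i < I ∧ ∀ s : Fin L, (p B (b i + s) : ZMod M) = v s} : ℝ) - (I : ℝ) / (M : ℝ) ^ L| ≤
      C * (I : ℝ) ^ (1 - κ)

lemma p_eq (A : Set ℕ) (x : Cfg) (n : ℕ) :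
    (p (symmDiff A {k | x k = true}) n : ℤ) = (pc (fun k => ¬ (k ∈ A ↔ x k = true)) n : ℤ) := by
  have h1 : p (symmDiff A {k | x k = true}) n = pc (fun k => k ∈ symmDiff A {k | x k = true}) n := rfl
  have h2 : (fun k => k ∈ symmDiff A {k | x k = true}) = fun k => ¬ (k ∈ A ↔ x k = true) := by
    funext k
    rw [Set.mem_symmDiff, Set.mem_ofPred_eq]
    exact propext (by tauto)
  rw [h1, h2]

lemma equi_iff (A : Set ℕ) (x : Cfg) (b : ℕ → ℕ) (κ : ℝ)
    (h : Equi (fun n => (pc (fun k => ¬ (k ∈ A ↔ x k = true)) n : ℤ)) b κ) :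
    Equidistributed (symmDiff A {k | x k = true}) b κ := by
  classical
  intro M L hM
  obtain ⟨C, hC⟩ := h M L hM
  refine ⟨C, fun v I hI => ?_⟩
  have h1 := hC v I hI
  have e : Set.ncard {i : ℕ | i < I ∧ ∀ s : Fin L, (p (symmDiff A {k | x k = true}) (b i + s) : ZMod M) = v s} =
      hits (fun n => (pc (fun k => ¬ (k ∈ A ↔ x k = true)) n : ℤ)) b M L v I := by
    unfold hits
    rw [← Set.ncard_coe_finset]
    congr 1
    ext i
    rw [Set.mem_ofPred_eq, coe_filter, Set.mem_ofPred_eq, mem_range]
    refine and_congr_right fun _ => forall_congr' fun s => ?_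
    have h2 := p_eq A x (b i + s)
    have h3 : (p (symmDiff A {k | x k = true}) (b i + s) : ZMod M) =
        ((pc (fun k => ¬ (k ∈ A ↔ x k = true)) (b i + s) : ℤ) : ZMod M) := by
      rw [← h2]; push_cast; rfl
    rw [h3]
  rw [e]
  exact h1

/-- **Sparse changes of the set of parts.**
(1) Let `0 < c < 1`, `D ≥ 0`, `D c < 1`. There is `κ > 0` such that for every set `A` of parts, all independent random
bits `ξ k` with `a k^(-c) ≤ P(ξ k = true) ≤ 1 - a k^(-c)` (`k ≥ 1`) and all strictly increasing `b` with
`b i ≤ C₀ (i + 1)^D`, almost surely the partition function of the set `A ∆ {k | ξ k = true}` is equidistributed along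
`b`: for all `M ≥ 1` and `L`, every vector modulo `M` is the value of `(p(b i), …, p(b i + L - 1))` for
`I / M^L + O(I^(1 - κ))` of the `i < I`.
(2) For every set `A` of parts and `0 < ε < 1` there is a set `B` which differs from `A` in at most `C N^ε` numbers up
to `N`, for all `N`, such that `p B` is equidistributed in this sense along all arithmetic progressions (with one
`κ > 0`); in particular `p B n` is odd for exactly half, and even for exactly half, of the `n`. -/
theorem result :
    (∀ c D : ℝ, 0 < c → c < 1 → 0 ≤ D → D * c < 1 → ∃ κ : ℝ, 0 < κ ∧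
      ∀ (Ω : Type u) [MeasurableSpace Ω] (μ : Measure Ω) [IsProbabilityMeasure μ] (ξ : ℕ → Ω → Bool),
        (∀ k, Measurable (ξ k)) → iIndepFun ξ μ → ∀ a : ℝ, 0 < a →
        (∀ k : ℕ, 1 ≤ k → a * (k : ℝ) ^ (-c) ≤ μ.real {ω | ξ k ω = true} ∧
          μ.real {ω | ξ k ω = true} ≤ 1 - a * (k : ℝ) ^ (-c)) →
        ∀ (A : Set ℕ) (b : ℕ → ℕ), StrictMono b → (∃ C₀ : ℝ, ∀ i, (b i : ℝ) ≤ C₀ * ((i : ℝ) + 1) ^ D) →
          ∀ᵐ ω ∂μ, Equidistributed (symmDiff A {k | ξ k ω = true}) b κ) ∧
    (∀ (A : Set ℕ) (ε : ℝ), 0 < ε → ε < 1 → ∃ B : Set ℕ,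
      (∃ C : ℝ, ∀ N : ℕ, (Set.ncard {k : ℕ | 1 ≤ k ∧ k ≤ N ∧ k ∈ symmDiff A B} : ℝ) ≤ C * (N : ℝ) ^ ε) ∧
      (∃ κ : ℝ, 0 < κ ∧ ∀ q r : ℕ, 0 < q → Equidistributed B (fun i => q * i + r) κ) ∧
      Tendsto (fun N : ℕ => (Set.ncard {n : ℕ | n < N ∧ Odd (p B n)} : ℝ) / N) atTop (𝓝 (1 / 2)) ∧
      Tendsto (fun N : ℕ => (Set.ncard {n : ℕ | n < N ∧ Even (p B n)} : ℝ) / N) atTop (𝓝 (1 / 2))) := by
  classical
  constructor
  · intro c D hc hc1 hD hDc
    obtain ⟨κ, hκ, -, h⟩ := main_as.{u} c D hc hc1 hD hDc
    refine ⟨κ, hκ, ?_⟩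
    intro Ω _ μ _ ξ hm hi a ha hp A b hb hbD
    filter_upwards [h Ω μ ξ hm hi a ha hp _ _ (sys_parts A) b hb hbD] with ω hω
    exact equi_iff A (cf ξ ω) b κ hω
  · intro A ε hε hε1
    obtain ⟨x, ⟨C, hC⟩, κ, hκ, hx⟩ := main_det (sys_parts A) hε hε1
    have hsd : symmDiff A (symmDiff A {k | x k = true}) = {k | x k = true} := symmDiff_symmDiff_cancel_left _ _
    refine ⟨symmDiff A {k | x k = true}, ⟨C, fun N => ?_⟩, ⟨κ, hκ, fun q r hq => equi_iff A x _ κ (hx q r hq)⟩, ?_, ?_⟩
    · rw [hsd]
      have e : {k : ℕ | 1 ≤ k ∧ k ≤ N ∧ k ∈ {k : ℕ | x k = true}} = (((Icc 1 N).filter fun k => x k = true : Finset ℕ) : Set ℕ) := by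
        ext k
        simp only [Set.mem_ofPred_eq, coe_filter, mem_Icc]
        tauto
      rw [e, Set.ncard_coe_finset]
      exact hC N
    all_goals
      have h1 := (hx 1 0 one_pos)
      have e1 : (fun i : ℕ => 1 * i + 0) = fun i => i := by funext i; omega
      rw [e1] at h1
    · have h2 := h1.density hκ 2 two_pos 1
      have e2 : ∀ N : ℕ, Set.ncard {n : ℕ | n < N ∧ Odd (p (symmDiff A {k | x k = true}) n)} =
          hits (fun n => (pc (fun k => ¬ (k ∈ A ↔ x k = true)) n : ℤ)) (fun i => i) 2 1 (fun _ => 1) N := by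
        intro N
        unfold hits
        rw [← Set.ncard_coe_finset]
        congr 1
        ext i
        rw [Set.mem_ofPred_eq, coe_filter, Set.mem_ofPred_eq, mem_range]
        refine and_congr_right fun _ => ?_
        rw [Fin.forall_fin_one]
        have h3 := p_eq A x i
        have h4 : (p (symmDiff A {k | x k = true}) i : ZMod 2) =
            ((pc (fun k => ¬ (k ∈ A ↔ x k = true)) i : ℤ) : ZMod 2) := by
          rw [← h3]; push_cast; rfl
        rw [← ZMod.natCast_eq_one_iff_odd, h4]
        simp
      simp only [e2]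
      simpa using h2
    · have h2 := h1.density hκ 2 two_pos 0
      have e2 : ∀ N : ℕ, Set.ncard {n : ℕ | n < N ∧ Even (p (symmDiff A {k | x k = true}) n)} =
          hits (fun n => (pc (fun k => ¬ (k ∈ A ↔ x k = true)) n : ℤ)) (fun i => i) 2 1 (fun _ => 0) N := by
        intro N
        unfold hits
        rw [← Set.ncard_coe_finset]
        congr 1
        ext i
        rw [Set.mem_ofPred_eq, coe_filter, Set.mem_ofPred_eq, mem_range]
        refine and_congr_right fun _ => ?_
        rw [Fin.forall_fin_one]
        have h3 := p_eq A x i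
        have h4 : (p (symmDiff A {k | x k = true}) i : ZMod 2) =
            ((pc (fun k => ¬ (k ∈ A ↔ x k = true)) i : ℤ) : ZMod 2) := by
          rw [← h3]; push_cast; rfl
        rw [← ZMod.natCast_eq_zero_iff_even, h4]
        simp
      simp only [e2]
      simpa using h2

end Pool.Agent.Results.MP_ebc808_nt.RandomSparseChanges
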