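import Pool.Agent.Run7.h363.PA.Di
import Pool.Agent.Run7.h363.PA.Cl4

set_option autoImplicit false

/-!
# The parity of all sequences algebraic over the partition function: a dichotomy (MP_ebc808_nt)

Let `P = ∑ p(n) X ^ n` modulo 2 and let `𝒜` be the set of all power series over `F_2` which are
algebraic over `F_2(X, P)`.

(1) `𝒜` is closed under the extraction of progressions: with `y` it contains
`∑ y_(M n + r) X ^ n` and `∑_(n ≡ r (M)) y_n X ^ n`, for all `M ≥ 1` and `r`.

(2) Let `y_1, …, y_k ∈ 𝒜`, `m_j ≥ 1`, `M ≥ 1`. There is a constant `C` such that for all `K`, all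
`c_(j,i) ∈ F_2`, all `ρ` and `A` the sequence

  `w(n) = ∑_j ∑_(i < K) c_(j,i) y_j(m_j n + i)`, `n ≡ ρ (mod M)`,

is either constant for `n ≥ A`, or it takes both values on the `n ≡ ρ (mod M)` in `[A, C (A + K)]`.

The class `𝒜` is a ring, closed under roots and under solving polynomial equations; it contains, for
instance, the series which are algebraic over `F_2(X)`, the powers `P ^ t` with rational exponents `t`
of odd denominator, the series `∑_k P(X) ^ (2 ^ k) - 1` with the coefficients
`∑_(2 ^ k ∣ n) p(n / 2 ^ k)`, and all eta-quotients modulo 2. In particular two sequences from `𝒜`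
which agree on the `n ≡ ρ (mod M)` in `[A, C (A + 1)]` agree on all `n ≥ A`, `n ≡ ρ (mod M)`. The
starting files have such a dichotomy for eta-quotients (and Mahler functions); the functions of `𝒜`
need not be of the form `X ^ s` times a function algebraic over `F_2(D)`.

Method. `D = X / P ^ 24` is the reduction of the discriminant; by the starting files `D` has a
transcendence measure over `F_2(X)`, the series `D(ζ X)` and `D(X ^ d)` are algebraic over `F_2(D)`,
and the sections of `P` modulo `2 ^ k` are algebraic over `F_2(X, D)`. Let `K` be the algebraic closure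
of `F_2(X, D)` in the field of fractions of the power series over the algebraic closure of `F_2`. New
is the closure under sections: `K = K ^ 2 + X K ^ 2`. Put `T_0 = K`, `T_(n+1) = T_n ^ 2 + X T_n ^ 2`;
these are fields, which contain `D` by the result on the sections of `P`. For `y ∈ K` some
`z = y ^ (2 ^ j)` is separable over `F_2(X, D) ⊆ T_(j+1)`, and `z ^ (2 ^ (j+1)) ∈ T_(j+1)`; so
`z ∈ T_(j+1)`, and as `X` is not a square one can descend to `y ∈ T_1`. This gives the sections modulo
powers of 2; the odd moduli follow with roots of unity. Then (2) is Liouville's method relative to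
`F_2(X, D)`.
-/

namespace Pool.Agent.Results.MP_ebc808_nt.WindowDichotomy

open PowerSeries

/-- `∑ p(n) X ^ n` modulo 2 -/
noncomputable def P : (ZMod 2)⟦X⟧ :=
  PowerSeries.mk fun n => (Fintype.card (Nat.Partition n) : ZMod 2)

/-- `y` is algebraic over `F_2(X, P)` -/
def Alg (y : (ZMod 2)⟦X⟧) : Prop :=
  IsAlgebraic (Algebra.adjoin (ZMod 2) {(X : (ZMod 2)⟦X⟧), P}) y

theorem result :
    (∀ y : (ZMod 2)⟦X⟧, Alg y → ∀ M r : ℕ, 0 < M →
      Alg (PowerSeries.mk fun n => coeff (M * n + r) y) ∧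
      Alg (PowerSeries.mk fun n => if n % M = r % M then coeff n y else 0)) ∧
    ∀ (k : ℕ) (y : Fin k → (ZMod 2)⟦X⟧), (∀ j, Alg (y j)) →
      ∀ m : Fin k → ℕ, (∀ j, 0 < m j) → ∀ M : ℕ, 0 < M →
      ∃ C : ℕ, ∀ (K : ℕ) (c : Fin k → ℕ → ZMod 2) (ρ A : ℕ),
        (∃ κ : ZMod 2, ∀ n, A ≤ n → n ≡ ρ [MOD M] →
          ∑ j, ∑ i ∈ Finset.range K, c j i * coeff (m j * n + i) (y j) = κ) ∨
        ∀ κ : ZMod 2, ∃ n, A ≤ n ∧ n ≤ C * (A + K) ∧ n ≡ ρ [MOD M] ∧
          ∑ j, ∑ i ∈ Finset.range K, c j i * coeff (m j * n + i) (y j) = κ := by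
  refine ⟨fun y hy M r hM => ?_, fun k y hy m hm M hM => ?_⟩
  · have h := Pool.Agent.Run7.h363.PA.mem_of_isAlgebraic hy
    exact ⟨Pool.Agent.Run7.h363.PA.isAlgebraic_of_mem
      (Pool.Agent.Run7.h363.PA.fn_mem h hM.ne' r),
      Pool.Agent.Run7.h363.PA.isAlgebraic_of_mem
      (Pool.Agent.Run7.h363.PA.proj_mem h M r hM)⟩
  · obtain ⟨C, hC⟩ := Pool.Agent.Run7.h363.PA.main_dich y
      (fun j => Pool.Agent.Run7.h363.PA.mem_of_isAlgebraic (hy j)) m hm M hM
    refine ⟨C, fun K c ρ A => ?_⟩
    rcases hC K c ρ A with h | h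
    · left
      by_cases hex : ∃ n, A ≤ n ∧ n ≡ ρ [MOD M]
      · obtain ⟨n0, h1, h2⟩ := hex
        exact ⟨_, fun n h3 h4 => h n n0 h3 h1 h4 h2⟩
      · exact ⟨0, fun n h3 h4 => absurd ⟨n, h3, h4⟩ hex⟩
    · exact Or.inr h

end Pool.Agent.Results.MP_ebc808_nt.WindowDichotomy
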